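import Pool.Agent.H49.LAN.Stmts

set_option autoImplicit false

open scoped BigOperators
open Finset

namespace LAN

namespace AIN

private lemma sumsq (p : ℕ) [Fact p.Prime] (a : ZMod p → ℤ) :
    (∑ x, a x) ^ 2 = ∑ d : ZMod p, ∑ x, a (x + d) * a x := by
  rw [sq, Finset.sum_mul_sum, Finset.sum_comm]
  rw [Finset.sum_comm (s := (univ : Finset (ZMod p))) (t := (univ : Finset (ZMod p)))
    (f := fun d x => a (x + d) * a x)]
  refine Finset.sum_congr rfl fun x _ => ?_
  rw [← Finset.sum_mul, ← Finset.sum_mul]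
  congr 1
  exact (Equiv.sum_comp (Equiv.addLeft x) a).symm

private lemma key (p m : ℕ) [Fact p.Prime] (a : ZMod p → ℤ) (c : ℤ)
    (h : ∀ d : ZMod p, ∑ x, a (x + d) * a x = c + if d = 0 then (m : ℤ) else 0)
    (hp : m ^ 2 + m + 1 < p) (hS : 2 * |∑ x, a x| ≤ (p : ℤ) - 1) : IsSquare m := by
  have h1 : (∑ x, a x) ^ 2 = (p : ℤ) * c + m := by
    rw [sumsq, Finset.sum_congr rfl (fun d _ => h d), Finset.sum_add_distrib]
    simp [ZMod.card]
  have h0 : ∑ x, a x * a x = c + m := by
    have := h 0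
    simpa using this
  have h2 : |∑ x, a x| ≤ ∑ x, a x * a x := by
    refine (Finset.abs_sum_le_sum_abs _ _).trans (Finset.sum_le_sum fun x _ => ?_)
    rw [← abs_mul_abs_self (a x)]
    rcases eq_or_ne (a x) 0 with hx | hx
    · simp [hx]
    · have : 1 ≤ |a x| := Int.one_le_abs hx
      nlinarith
  set S := ∑ x, a x with hSdef
  have hpZ : (m : ℤ) ^ 2 + m + 1 < p := by exact_mod_cast hp
  have hm0 : (0 : ℤ) ≤ m := by positivity
  have hsq : |S| * |S| = S * S := abs_mul_abs_self S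
  have h3 : |S| ≤ m := by
    by_contra hcon
    push Not at hcon
    have hcon' : (m : ℤ) + 1 ≤ |S| := hcon
    have e1 : (p : ℤ) * |S| ≤ (p : ℤ) * (c + m) := by
      rw [← h0]; exact mul_le_mul_of_nonneg_left h2 (by positivity)
    have e2 : |S| * |S| - p * |S| + ((p : ℤ) - 1) * m ≥ 0 := by
      rw [hsq]; nlinarith
    have e3 : (|S| - (m + 1)) * ((p : ℤ) - 1 - |S| - m) ≥ 0 := by
      apply mul_nonneg <;> linarith
    nlinarith
  have h4 : |S| * |S| ≤ m * m := mul_le_mul h3 h3 (abs_nonneg _) hm0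
  rw [hsq] at h4
  have h5 : (p : ℤ) ∣ S * S - m := ⟨c, by nlinarith⟩
  have h6 : S * S - m = 0 := by
    apply Int.eq_zero_of_abs_lt_dvd h5
    rw [abs_lt]
    have : 0 ≤ S * S := mul_self_nonneg S
    constructor <;> nlinarith
  refine ⟨S.natAbs, ?_⟩
  have : ((S.natAbs * S.natAbs : ℕ) : ℤ) = m := by
    rw [Int.natAbs_mul_self]; linarith
  exact_mod_cast this.symm

end AIN

theorem ain : AINStmt := by
  intro p m _ a c h hp
  rcases Nat.eq_zero_or_pos m with hm | hm
  · subst hm; exact ⟨0, rfl⟩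
  have hp3 : 3 < p := by nlinarith
  have hodd : p % 2 = 1 := by
    rcases (Fact.out : p.Prime).eq_two_or_odd with h2 | h2
    · omega
    · exact h2
  obtain ⟨b, hb⟩ : ∃ b : ℤ, 2 * |(∑ x, a x) + p * b| ≤ (p : ℤ) - 1 := by
    set S := ∑ x, a x
    have hpz : (0 : ℤ) < p := by exact_mod_cast (by omega : 0 < p)
    have e := Int.emod_add_mul_ediv S p
    have r0 := Int.emod_nonneg S hpz.ne'
    have r1 := Int.emod_lt_of_pos S hpz
    by_cases hr : 2 * (S % p) ≤ (p : ℤ) - 1
    · refine ⟨-(S / p), ?_⟩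
      have : S + p * -(S / p) = S % p := by linarith
      rw [this, abs_of_nonneg r0]; exact hr
    · refine ⟨-(S / p) - 1, ?_⟩
      have : S + p * (-(S / p) - 1) = S % p - p := by linarith
      rw [this, abs_of_nonpos (by linarith)]
      omega
  refine AIN.key p m (fun x => a x + b) (c + 2 * b * (∑ x, a x) + p * b ^ 2) ?_ hp ?_
  · intro d
    have e1 : ∀ x, (a (x + d) + b) * (a x + b) = a (x + d) * a x + b * a (x + d) + b * a x + b ^ 2 := by
      intro x; ring
    simp only [e1, Finset.sum_add_distrib, ← Finset.mul_sum, h d]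
    have e2 : ∑ x, a (x + d) = ∑ x, a x := Equiv.sum_comp (Equiv.addRight d) a
    rw [e2]
    simp only [Finset.sum_const, Finset.card_univ, ZMod.card, nsmul_eq_mul]
    ring
  · rw [Finset.sum_add_distrib]
    simpa [ZMod.card] using hb

end LAN
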