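import Pool.Agent.H49.LAN.Stmts

set_option autoImplicit false

open scoped BigOperators
open Finset

namespace LAN

namespace BSG

variable (p s : ℕ) [Fact p.Prime]

omit [Fact p.Prime] in
lemma pow_eq (hs : 1 ≤ s) : p ^ (s - 1) * p = p ^ s := by
  rw [← pow_succ]; congr 1; omega

lemma iota_nat (hs : 1 ≤ s) (k : ℕ) :
    iota p s (k : ZMod p) = ((p ^ (s - 1) * k : ℕ) : ZMod (p ^ s)) := by
  unfold iota
  rw [ZMod.natCast_eq_natCast_iff, ZMod.val_natCast]
  have h := (Nat.mod_modEq k p).mul_left' (p ^ (s - 1))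
  rwa [pow_eq p s hs] at h

lemma iota_add (hs : 1 ≤ s) (l m : ZMod p) : iota p s (l + m) = iota p s l + iota p s m := by
  have hl : l = ((l.val : ℕ) : ZMod p) := (ZMod.natCast_rightInverse l).symm
  have hm : m = ((m.val : ℕ) : ZMod p) := (ZMod.natCast_rightInverse m).symm
  rw [hl, hm, ← Nat.cast_add, iota_nat p s hs, iota_nat p s hs, iota_nat p s hs]
  push_cast
  ring

lemma iota_zero (hs : 1 ≤ s) : iota p s 0 = 0 := by
  have := iota_nat p s hs 0
  simpa using this

lemma iota_eq_zero (hs : 1 ≤ s) (l : ZMod p) (h : iota p s l = 0) : l = 0 := by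
  unfold iota at h
  rw [ZMod.natCast_eq_zero_iff, ← pow_eq p s hs] at h
  have hp : 0 < p := (Fact.out : p.Prime).pos
  have h2 : p ∣ l.val := Nat.dvd_of_mul_dvd_mul_left (by positivity) h
  have h3 : l.val = 0 := Nat.eq_zero_of_dvd_of_lt h2 (ZMod.val_lt l)
  exact (ZMod.val_eq_zero l).1 h3

lemma iota_inj (hs : 1 ≤ s) : Function.Injective (iota p s) := by
  intro a b h
  have h1 : iota p s (a - b) = 0 := by
    have := iota_add p s hs (a - b) b
    rw [sub_add_cancel, h] at this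
    have h2 : iota p s (a - b) + iota p s b = 0 + iota p s b := by rw [← this, zero_add]
    exact add_right_cancel h2
  exact sub_eq_zero.1 (iota_eq_zero p s hs _ h1)

lemma p_iota (hs : 1 ≤ s) (l : ZMod p) : (p : ZMod (p ^ s)) * iota p s l = 0 := by
  unfold iota
  rw [← Nat.cast_mul, ZMod.natCast_eq_zero_iff, ← pow_eq p s hs]
  exact ⟨l.val, by ring⟩

lemma iota_surj (hs : 1 ≤ s) (i : ZMod (p ^ s)) (h : (p : ZMod (p ^ s)) * i = 0) :
    i ∈ Set.range (iota p s) := by
  have hp : 0 < p := (Fact.out : p.Prime).pos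
  have hi : i = ((i.val : ℕ) : ZMod (p ^ s)) := (ZMod.natCast_rightInverse i).symm
  rw [hi, ← Nat.cast_mul, ZMod.natCast_eq_zero_iff] at h
  have h' : p * p ^ (s - 1) ∣ p * i.val := by
    have e : p * p ^ (s - 1) = p ^ s := by rw [mul_comm]; exact pow_eq p s hs
    rw [e]; exact h
  obtain ⟨k, hk⟩ := Nat.dvd_of_mul_dvd_mul_left hp h'
  refine ⟨(k : ZMod p), ?_⟩
  rw [iota_nat p s hs, ← hk, ← hi]

lemma mul_iota (hs : 1 ≤ s) (x : ZMod (p ^ s)) (l : ZMod p) :
    x * iota p s l = iota p s ((ZMod.castHom (dvd_pow_self p (by omega : s ≠ 0)) (ZMod p)) x * l) := by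
  have hl : l = ((l.val : ℕ) : ZMod p) := (ZMod.natCast_rightInverse l).symm
  have hx : x = ((x.val : ℕ) : ZMod (p ^ s)) := (ZMod.natCast_rightInverse x).symm
  rw [hl, hx, map_natCast, ← Nat.cast_mul, iota_nat p s hs, iota_nat p s hs]
  push_cast
  ring

end BSG

theorem bsg : BSGStmt := by
  intro p s _ W _ _ _ f n lam t g ε hp2 hs hgen hg h01 hDS hNS hq
  have hd : p ∣ p ^ s := dvd_pow_self p (by omega)
  refine ⟨ZMod.unitsMap hd t, ?_, hNS.e1, hg, fun l u => h01 _ _, ?_, ?_⟩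
  · intro x
    obtain ⟨y, rfl⟩ := ZMod.unitsMap_surjective hd x
    obtain ⟨k, rfl⟩ := Subgroup.mem_zpowers_iff.1 (hgen y)
    exact Subgroup.mem_zpowers_iff.2 ⟨k, by rw [map_zpow]⟩
  · have step : ∀ (l : ZMod p) (u : W),
        f (iota p s (((ZMod.unitsMap hd t)⁻¹ : (ZMod p)ˣ) * l)) u =
          f (iota p s 0) u + ε * (f (iota p s l) (u * g⁻¹) - f (iota p s 0) (u * g⁻¹)) := by
      intro l u
      have h1 := hNS.per u 0 (iota p s l) (BSG.p_iota p s hs l)
      simp only [zero_add, mul_zero] at h1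
      have h2 : (↑t⁻¹ : ZMod (p ^ s)) * iota p s l =
          iota p s (((ZMod.unitsMap hd t)⁻¹ : (ZMod p)ˣ) * l) := by
        rw [BSG.mul_iota p s hs, ← map_inv]
        rfl
      rw [h2] at h1
      rw [BSG.iota_zero p s hs]
      linarith
    intro j
    induction j with
    | zero => intro u; simp
    | succ j ih =>
      intro u
      have e : (((ZMod.unitsMap hd t) ^ (j + 1))⁻¹ : (ZMod p)ˣ) =
          (ZMod.unitsMap hd t)⁻¹ * ((ZMod.unitsMap hd t) ^ j)⁻¹ := by
        rw [pow_succ, mul_inv, mul_comm]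
      rw [e, Units.val_mul, step, ih]
      have e2 : u * g⁻¹ * (g ^ j)⁻¹ = u * (g ^ (j + 1))⁻¹ := by
        rw [pow_succ, mul_inv, mul_assoc, mul_comm g⁻¹]
      rw [e2, pow_succ]
      ring
  · intro y hy h
    have hy' : iota p s y ≠ 0 := fun h0 => hy (BSG.iota_eq_zero p s hs y h0)
    have a0 := hDS.ac 0 h
    have a1 := hDS.ac (iota p s y) h
    have e1 : ∑ i, ∑ u, (f i (u * h) - f (i + iota p s y) (u * h)) * f i u =
        if h = 1 then n else 0 := by
      simp only [sub_mul, Finset.sum_sub_distrib]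
      rw [a1]
      simp only [add_zero, true_and] at a0
      rw [a0]
      simp [hy']
    rw [← e1]
    refine Fintype.sum_of_injective (iota p s) (BSG.iota_inj p s hs) _ _ ?_ ?_
    · intro i hi
      have hpi : (p : ZMod (p ^ s)) * i ≠ 0 := fun h0 => hi (BSG.iota_surj p s hs i h0)
      refine Finset.sum_eq_zero fun u _ => ?_
      rw [hq i (iota p s y) (u * h) (BSG.p_iota p s hs y) hpi]
      ring
    · intro l
      simp only [BSG.iota_add p s hs]

end LAN
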